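import Pool.Agent.H38.RB.Targets

/-!
# DEL: one of many primes has small weight
-/

set_option autoImplicit false

namespace Pool.Agent.H38.RB

theorem del_tp_le (S : Finset ℕ) (hS : ∀ p ∈ S, p.Prime) {m : ℕ} (hm : m ≠ 0) : tp S m ≤ m := by
  unfold tp
  calc ∏ p ∈ S, p ^ m.factorization p ≤ ∏ p ∈ S ∪ m.primeFactors, p ^ m.factorization p := by
        refine Finset.prod_le_prod_of_subset_of_one_le' Finset.subset_union_left ?_
        intro p hp _
        rcases Finset.mem_union.1 hp with h | h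
        · exact Nat.one_le_pow _ _ (hS p h).pos
        · exact Nat.one_le_pow _ _ (Nat.prime_of_mem_primeFactors h).pos
    _ = ∏ p ∈ m.primeFactors, p ^ m.factorization p := by
        symm
        refine Finset.prod_subset Finset.subset_union_right ?_
        intro p _ hp
        rw [Finsupp.notMem_support_iff.1 (by rw [Nat.support_factorization]; exact hp), pow_zero]
    _ = m := Nat.prod_factorization_pow_eq_self hm

theorem del_ht_pos {x : Fin 3 → ℤ} (hx : Adm x) : 1 ≤ ht x := by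
  have h := hx.1 0
  have h1 : 1 ≤ (x 0).natAbs := Nat.one_le_iff_ne_zero.2 (Int.natAbs_ne_zero.2 h)
  exact h1.trans (le_max_left _ _)

theorem del_pr_le (x : Fin 3 → ℤ) : pr x ≤ ht x ^ 3 := by
  unfold pr
  rw [Int.natAbs_mul, Int.natAbs_mul]
  have h0 : (x 0).natAbs ≤ ht x := le_max_left _ _
  have h1 : (x 1).natAbs ≤ ht x := (le_max_left _ _).trans (le_max_right _ _)
  have h2 : (x 2).natAbs ≤ ht x := (le_max_right _ _).trans (le_max_right _ _)
  calc (x 0).natAbs * (x 1).natAbs * (x 2).natAbs ≤ ht x * ht x * ht x :=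
        Nat.mul_le_mul (Nat.mul_le_mul h0 h1) h2
    _ = ht x ^ 3 := by ring

theorem del_pr_ne {x : Fin 3 → ℤ} (hx : Adm x) : pr x ≠ 0 := by
  unfold pr
  rw [Int.natAbs_ne_zero]
  exact mul_ne_zero (mul_ne_zero (hx.1 0) (hx.1 1)) (hx.1 2)

theorem DEL : T_DEL := by
  intro κ K T S x hκ hκ1 hK hT hST hKS hx
  obtain ⟨hA, hle⟩ := hx
  set H : ℝ := (ht x : ℝ) with hH
  have hH1 : 1 ≤ H := by
    rw [hH]
    exact_mod_cast del_ht_pos hA
  have hH0 : 0 < H := by linarith
  have hKpos : (0 : ℝ) < K := by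
    by_contra h
    have h0 : (K : ℝ) = 0 := le_antisymm (not_lt.1 h) (Nat.cast_nonneg K)
    rw [h0, mul_zero] at hK
    linarith
  have hKne : 0 < K := by exact_mod_cast hKpos
  have hex : ∃ p ∈ S, ((p ^ (pr x).factorization p : ℕ) : ℝ) ≤ H ^ (3 / (K : ℝ)) := by
    by_contra hcon
    push Not at hcon
    have hSne : S.Nonempty := Finset.card_pos.1 (by omega)
    have h1 : (H ^ (3 / (K : ℝ))) ^ S.card < ((tp S (pr x) : ℕ) : ℝ) := by
      unfold tp
      push_cast
      rw [← Finset.prod_const]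
      refine Finset.prod_lt_prod_of_nonempty (fun p _ => by positivity) (fun p hp => ?_) hSne
      have := hcon p hp
      push_cast at this
      exact this
    have h2 : ((tp S (pr x) : ℕ) : ℝ) ≤ H ^ (3 : ℕ) := by
      have h3 := (del_tp_le S (fun p hp => hT p (hST hp)) (del_pr_ne hA)).trans (del_pr_le x)
      rw [hH]
      exact_mod_cast h3
    have h4 : H ^ (3 : ℕ) ≤ (H ^ (3 / (K : ℝ))) ^ S.card := by
      rw [← Real.rpow_natCast (H ^ (3 / (K : ℝ))), ← Real.rpow_mul hH0.le,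
        ← Real.rpow_natCast H 3]
      refine Real.rpow_le_rpow_of_exponent_le hH1 ?_
      rw [div_mul_eq_mul_div, le_div_iff₀ hKpos]
      push_cast
      have : (K : ℝ) ≤ S.card := by exact_mod_cast hKS
      linarith
    linarith
  obtain ⟨p, hp, hpH⟩ := hex
  refine ⟨p, hp, hA, ?_⟩
  have h5 : ((tp T (pr x) : ℕ) : ℝ) = ((p ^ (pr x).factorization p : ℕ) : ℝ) *
      ((tp (T.erase p) (pr x) : ℕ) : ℝ) := by
    have : tp T (pr x) = p ^ (pr x).factorization p * tp (T.erase p) (pr x) := by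
      unfold tp
      rw [Finset.mul_prod_erase T (fun p => p ^ (pr x).factorization p) (hST hp)]
    rw [this]
    push_cast
    ring
  have h6 : H ^ κ * H ^ (3 / (K : ℝ)) ≤ H ^ ((1 + κ) / 2) := by
    rw [← Real.rpow_add hH0]
    refine Real.rpow_le_rpow_of_exponent_le hH1 ?_
    have h7 : 3 / (K : ℝ) ≤ (1 - κ) / 2 := by
      rw [div_le_div_iff₀ hKpos (by norm_num)]
      linarith
    linarith
  calc (pr x : ℝ) ≤ H ^ κ * (tp T (pr x) : ℝ) := hle
    _ = (H ^ κ * ((p ^ (pr x).factorization p : ℕ) : ℝ)) * (tp (T.erase p) (pr x) : ℝ) := by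
        rw [h5]
        ring
    _ ≤ (H ^ κ * H ^ (3 / (K : ℝ))) * (tp (T.erase p) (pr x) : ℝ) := by
        refine mul_le_mul_of_nonneg_right ?_ (Nat.cast_nonneg _)
        exact mul_le_mul_of_nonneg_left hpH (Real.rpow_nonneg hH0.le _)
    _ ≤ H ^ ((1 + κ) / 2) * (tp (T.erase p) (pr x) : ℝ) :=
        mul_le_mul_of_nonneg_right h6 (Nat.cast_nonneg _)

end Pool.Agent.H38.RB
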